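import Pool.Agent.Helper13KM.Bridge

/-!
# The cone conjecture descends along finite étale Galois coverings

*Theorem.* Let `Y' → Y` be a finite étale Galois covering of smooth projective varieties with
`K ≡ 0`. If the Kawamata-Morrison cone conjecture (Q1) holds for `Y'`, then it holds for `Y`.

The proof. Let `G` be the Galois group, `Γ ⊆ GL(N^1(Y'))` the image of `Aut(Y')`.

(1) (Looijenga) Let `ξ` be an integral linear form on `N^1(Y')` which is positive on the nef classes
`≠ 0` and has trivial stabiliser in `Γ`. By Dickson's lemma, applied to the degrees `ξ(γ v)` of the
translates of the generators `v` of the given cone `Π`, the Dirichlet domain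
`σ = {x ∈ Nef^+ : ξ(x) ≤ ξ(γ x) for all γ ∈ Γ}` is a rational polyhedral cone, and it is a
fundamental domain.

(2) Let `v_1, …, v_m` be the generators of `σ`. If `γ` fixes an ample class `x = ∑ a_j v_j ∈ σ`, then
`ξ(γ v_j) = ξ(v_j)` for all `j` with `a_j > 0`, as `ξ(γ v_j) ≥ ξ(v_j)`. The sum of these `v_j` is
ample, so there are only finitely many such `γ`.

(3) Let `x` be a `G`-invariant ample class, `x = φ_* y` with `y ∈ σ`. Then `φ⁻¹ G φ` fixes `y`, so it
is contained in a finite union of cosets of the abelian variety `A = Aut^0(Y')`. As `H^1(G, A)` is finite,
there are only finitely many homomorphisms `g ↦ φ⁻¹ g φ` up to conjugation with `A`. So, modulo the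
centraliser of `G` and `A`, only finitely many `φ` occur.

(4) The averages over `G` of the generators of the corresponding cones `φ σ` generate a rational
polyhedral cone in `N^1(Y)` whose translates under the centraliser of `G` contain the ample cone of
`Y`; by (1) for `Y` there is a fundamental domain.

The cone of effective classes and the nef cone enter as data with their known properties
(`IsVariety`, `IsGaloisCover`); the convex geometry and the group theory are proved.
-/

set_option autoImplicit false

namespace Pool.Agent.Results.MP_e49dc9_ag.EtaleQuotients

open Pool.Agent.Helper13KM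

/-- Let `Y' → Y` be a finite étale Galois covering with the group `G` of smooth projective varieties
with `K ≡ 0`, and `p` the pull-back `N^1(Y) → N^1(Y')`. If the cone conjecture holds for `Y'` then it
holds for `Y`. -/
theorem result {Y' Y : Datum} (hY' : IsVariety Y') (hY : IsVariety Y) {G : Subgroup Y'.Aut}
    {p : (Fin Y.rho → ℝ) → (Fin Y'.rho → ℝ)} (hp : IsGaloisCover Y' Y G p)
    (h : ConeConjecture Y') : ConeConjecture Y :=
  descent hY' hY hp h

end Pool.Agent.Results.MP_e49dc9_ag.EtaleQuotients
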