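import Pool.Agent.Helper13KM.Factor

/-!
# The cone conjecture in dimension `n` implies the cone conjecture in all smaller dimensions

*Theorem.* If the Kawamata-Morrison cone conjecture (Q1) holds for all smooth projective varieties with
`K ≡ 0` of one dimension `n`, then it holds for all those of dimension at most `n`. So it suffices to
prove it in arbitrarily large dimensions.

The proof. Let `dim Y ≤ n`, and let `X` be a strict Calabi-Yau manifold in the Beauville-Bogomolov
decomposition of `Y`. Let `A` be an abelian variety of dimension `n - dim X`. Then `Z = X × A` has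
dimension `n`, `N^1(Z) = N^1(X) ⊕ N^1(A)`, and `Aut(Z) = Aut(X) × Aut(A)`. The projection to `N^1(X)`
of the generators of a fundamental domain for `Z` gives finitely many generators of the effective nef
cone of `X` for the action of `Aut(X)`; by Looijenga's theorem the conjecture holds for `X`
(`factor`). It holds for abelian varieties and for irreducible holomorphic symplectic manifolds, so it
holds for the product of the factors (`product`), and it descends to `Y` (`descent`).

`Z` is not related to `Y`: in general `Aut(Y × A)` is not generated by `Aut(Y) × Aut(A)` up to finite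
index, and there is no direct argument with `Y × A`.
-/

set_option autoImplicit false

namespace Pool.Agent.Results.MP_e49dc9_ag.LargeDimension

open Pool.Agent.Helper13KM

/-- The smooth projective varieties with `K ≡ 0`, their dimensions and their numerical data; the abelian
varieties (including the point); the irreducible holomorphic symplectic manifolds (including K3
surfaces); the strict Calabi-Yau manifolds. `Factor X Y` means that `X` is one of the factors of the
Beauville-Bogomolov decomposition of `Y`. -/
structure World where
  Var : Type
  dim : Var → ℕ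
  datum : Var → Datum
  Abelian : Var → Prop
  Symplectic : Var → Prop
  StrictCY : Var → Prop
  Factor : Var → Var → Prop

/-- `X` is the product of the varieties in the list, with `N^1(X)` the direct sum of their `N^1`. -/
inductive IsProductOf (W : World) : W.Var → List W.Var → Prop
  | single (X : W.Var) : IsProductOf W X [X]
  | mul (X X₁ X₂ : W.Var) (l₁ l₂ : List W.Var)
      (h : ∃ i₁ i₂, IsProduct (W.datum X) (W.datum X₁) (W.datum X₂) i₁ i₂)
      (h₁ : IsProductOf W X₁ l₁) (h₂ : IsProductOf W X₂ l₂) : IsProductOf W X (l₁ ++ l₂)

/-- The known facts. `decomposition` is the theorem of Beauville and Bogomolov; `abelian` is due to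
Prendergast-Smith, `symplectic` to Amerik and Verbitsky; `times` is the product of a strict Calabi-Yau
manifold and an abelian variety of dimension `g` (a point if `g = 0`). -/
structure IsWorld (W : World) : Prop where
  variety : ∀ X, IsVariety (W.datum X)
  abelian : ∀ X, W.Abelian X → ConeConjecture (W.datum X)
  symplectic : ∀ X, W.Symplectic X → ConeConjecture (W.datum X)
  decomposition : ∀ Y, ∃ Y' l, IsProductOf W Y' l ∧
    (∀ X ∈ l, W.Factor X Y ∧ (W.Abelian X ∨ W.Symplectic X ∨ W.StrictCY X)) ∧
    ∃ G p, IsGaloisCover (W.datum Y') (W.datum Y) G p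
  factor_dim : ∀ X Y, W.Factor X Y → W.dim X ≤ W.dim Y
  times : ∀ X, W.StrictCY X → ∀ g, ∃ Z A, W.Abelian A ∧ W.dim Z = W.dim X + g ∧
    ∃ i₁ i₂, IsRigidProduct (W.datum Z) (W.datum X) (W.datum A) i₁ i₂

lemma coneConjecture_of_factors {W : World} (hW : IsWorld W) {Z : W.Var} {l : List W.Var}
    (h : IsProductOf W Z l) (h' : ∀ X ∈ l, ConeConjecture (W.datum X)) :
    ConeConjecture (W.datum Z) := by
  induction h with
  | single X => exact h' X (List.mem_singleton_self X)
  | mul X X₁ X₂ l₁ l₂ hp _ _ ih₁ ih₂ =>
    obtain ⟨i₁, i₂, hp⟩ := hp
    exact product (hW.variety X) (hW.variety X₁) (hW.variety X₂) hp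
      (ih₁ fun Z hZ => h' Z (List.mem_append_left _ hZ))
      (ih₂ fun Z hZ => h' Z (List.mem_append_right _ hZ))

/-- If the cone conjecture holds for all varieties with `K ≡ 0` of dimension `n`, then it holds for all
those of dimension at most `n`. -/
theorem result (W : World) (hW : IsWorld W) (n : ℕ)
    (h : ∀ Y, W.dim Y = n → ConeConjecture (W.datum Y)) (Y : W.Var) (hY : W.dim Y ≤ n) :
    ConeConjecture (W.datum Y) := by
  have hCY : ∀ X, W.StrictCY X → W.dim X ≤ n → ConeConjecture (W.datum X) := by
    intro X hX hXn
    obtain ⟨Z, A, -, hZ, i₁, i₂, hp⟩ := hW.times X hX (n - W.dim X)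
    exact factor (hW.variety Z) (hW.variety X) (hW.variety A) hp (h Z (by omega))
  obtain ⟨Y', l, h1, h2, G, p, h3⟩ := hW.decomposition Y
  have h4 : ∀ X ∈ l, ConeConjecture (W.datum X) := by
    intro X hX
    obtain ⟨h5, h6 | h6 | h6⟩ := h2 X hX
    · exact hW.abelian X h6
    · exact hW.symplectic X h6
    · exact hCY X h6 ((hW.factor_dim X Y h5).trans hY)
  exact descent (hW.variety Y') (hW.variety Y) h3 (coneConjecture_of_factors hW h1 h4)

end Pool.Agent.Results.MP_e49dc9_ag.LargeDimension
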