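import Pool.Agent.Helper13KM.Bridge

/-!
# Reduction of the cone conjecture to strict Calabi-Yau manifolds

*Theorem.* Let `Y` be a smooth projective variety with `K_Y ≡ 0`. If the Kawamata-Morrison cone
conjecture (Q1) holds for the strict Calabi-Yau manifolds in the Beauville-Bogomolov decomposition of
`Y`, then it holds for `Y`.

A strict Calabi-Yau manifold is simply connected of dimension `n ≥ 3` with trivial canonical bundle and
`h^i(O) = 0` for `0 < i < n`. So Q1 is equivalent to Q1 for strict Calabi-Yau manifolds (of the same or
smaller dimension), and Q1 holds for all `Y` without strict Calabi-Yau factors, that is, for all finite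
étale quotients of products of abelian varieties and irreducible holomorphic symplectic manifolds.

The proof. By the theorem of Beauville and Bogomolov there is a finite étale Galois covering
`Y' → Y` such that `Y'` is the product of an abelian variety, irreducible holomorphic symplectic
manifolds and strict Calabi-Yau manifolds. At most one of the factors is not simply connected, so
`N^1(Y')` is the direct sum of the groups `N^1` of the factors, and the nef cone and the effective cone
are the products of those of the factors. The product of the fundamental domains of the factors is a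
rational polyhedral cone whose translates cover the effective nef cone of `Y'`. By Looijenga's theorem
there is a fundamental domain for `Aut(Y')`; and the cone conjecture descends from `Y'` to `Y`
(`descent`). The convex geometry and the group theory are proved.
-/

set_option autoImplicit false

namespace Pool.Agent.Results.MP_e49dc9_ag.StrictCalabiYau

open Pool.Agent.Helper13KM

/-- The smooth projective varieties with `K ≡ 0` and their numerical data; the abelian varieties; the
irreducible holomorphic symplectic manifolds (including K3 surfaces); the strict Calabi-Yau manifolds.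
`Factor X Y` means that `X` is one of the factors of the Beauville-Bogomolov decomposition of `Y`. -/
structure World where
  Var : Type
  datum : Var → Datum
  Abelian : Var → Prop
  Symplectic : Var → Prop
  StrictCY : Var → Prop
  Factor : Var → Var → Prop

/-- `X` is the product of the varieties in the list, with `N^1(X)` the direct sum of their `N^1`. -/
inductive IsProductOf (W : World) : W.Var → List W.Var → Prop
  | single (X : W.Var) : IsProductOf W X [X]
  | mul (X X₁ X₂ : W.Var) (l₁ l₂ : List W.Var)
      (h : ∃ i₁ i₂, IsProduct (W.datum X) (W.datum X₁) (W.datum X₂) i₁ i₂)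
      (h₁ : IsProductOf W X₁ l₁) (h₂ : IsProductOf W X₂ l₂) : IsProductOf W X (l₁ ++ l₂)

/-- The known facts. `decomposition` is the theorem of Beauville and Bogomolov; `abelian` is due to
Prendergast-Smith, `symplectic` to Amerik and Verbitsky. -/
structure IsWorld (W : World) : Prop where
  variety : ∀ X, IsVariety (W.datum X)
  abelian : ∀ X, W.Abelian X → ConeConjecture (W.datum X)
  symplectic : ∀ X, W.Symplectic X → ConeConjecture (W.datum X)
  decomposition : ∀ Y, ∃ Y' l, IsProductOf W Y' l ∧
    (∀ X ∈ l, W.Factor X Y ∧ (W.Abelian X ∨ W.Symplectic X ∨ W.StrictCY X)) ∧
    ∃ G p, IsGaloisCover (W.datum Y') (W.datum Y) G p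

lemma coneConjecture_of_factors {W : World} (hW : IsWorld W) {Z : W.Var} {l : List W.Var}
    (h : IsProductOf W Z l) (h' : ∀ X ∈ l, ConeConjecture (W.datum X)) :
    ConeConjecture (W.datum Z) := by
  induction h with
  | single X => exact h' X (List.mem_singleton_self X)
  | mul X X₁ X₂ l₁ l₂ hp _ _ ih₁ ih₂ =>
    obtain ⟨i₁, i₂, hp⟩ := hp
    exact product (hW.variety X) (hW.variety X₁) (hW.variety X₂) hp
      (ih₁ fun Z hZ => h' Z (List.mem_append_left _ hZ))
      (ih₂ fun Z hZ => h' Z (List.mem_append_right _ hZ))

/-- If the cone conjecture holds for the strict Calabi-Yau factors of `Y`, then it holds for `Y`. -/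
theorem result (W : World) (hW : IsWorld W) (Y : W.Var)
    (h : ∀ X, W.Factor X Y → W.StrictCY X → ConeConjecture (W.datum X)) :
    ConeConjecture (W.datum Y) := by
  obtain ⟨Y', l, h1, h2, G, p, h3⟩ := hW.decomposition Y
  have h4 : ∀ X ∈ l, ConeConjecture (W.datum X) := by
    intro X hX
    obtain ⟨h5, h6 | h6 | h6⟩ := h2 X hX
    · exact hW.abelian X h6
    · exact hW.symplectic X h6
    · exact h X h5 h6
  have h7 : ConeConjecture (W.datum Y') := coneConjecture_of_factors hW h1 h4
  exact descent (hW.variety Y') (hW.variety Y) h3 h7

end Pool.Agent.Results.MP_e49dc9_ag.StrictCalabiYau
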