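import Pool.Agent.Helper15K1.KC.Main
import Pool.Agent.Helper15K1.MM.Cls

/-!
# The cone conjecture for the small modifications of toroidal Calabi-Yau covers

Let `F i` be a form of degree `d i` in `n i + 1` variables whose zero set in the projective
`n i`-space is a smooth hypersurface, and let `H i` be the cyclic hypersurface `w ^ (d i) = F i` in
the projective `(n i + 1)`-space. Let `K` be the function field of a quotient
`Y = (H 1 × ... × H r) / G`, where `G` is any group of diagonal automorphisms
`w i ↦ ζ i * w i`, `ζ i ^ (d i) = 1`. Equivalently, `K` is generated by the affine coordinates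
`x i j / x i 0` of the product of the projective `n i`-spaces and by roots `z j`,
`z j ^ (m j) = ∏ i, (F i (x i) / x i 0 ^ (d i)) ^ (a j i)`, where `m j` divides `a j i * d i`: the
abelian covers of the product of the projective spaces which are branched along the hypersurfaces
`F i = 0` of the factors.

If `d i = 2 * (n i + 1)` for all `i` and `Y` is the double cover `z ^ 2 = ∏ i, F i` of the product of
the projective spaces then `K_Y = 0`, and the crepant resolutions `X` of `Y` which are toroidal
modifications (given by the unimodular triangulations of the simplex with the vertices `2 e_i`) are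
Calabi-Yau manifolds, of the type studied by Borcea, Voisin, Cynk and Hulek; there are many more
toroidal modifications `X` with `K_X = 0` (quotients of products of cyclic hypersurfaces). The
theorem below does not need the condition `K_X = 0`.

A prime divisor `P` over `Y` (a divisorial place of `K`) has the vector `multiplicities F d x P` of the
multiplicities `v i` of the hypersurfaces along `P`. The vectors `v ≠ 0` of nonnegative integers with
`m j ∣ ∑ i, a j i * v i` for all `j` are the `Admissible` ones: the nonzero points, in the positive
orthant, of the lattice of the toroidal variety `Y`.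

**The varieties.** The toroidal modifications `X` of `Y` are given by the subdivisions (fans) of the
positive orthant into rational polyhedral cones; `fan` is the set of the maximal cones, each given by
a finite set of admissible generators which span the space.

**The divisors.** `D 1, ..., D p` are toroidal `ℚ`-Cartier divisors on `X`: sums of multiples `β i t`
of the hyperplane classes of the factors and of the prime divisors of the boundary of `X`. The
coefficient of the pullback of `D i` at a prime divisor `P` over `X` is
`δ i P = coefficient F d x (c i) (β i) P = c i v + ∑ t, β i t * h t`, where `v` is the vector of the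
multiplicities, `h t` is minus the minimal order at `P` of the homogeneous coordinates of the `t`-th
factor, and `- c i v = ∑ k, u σ i k * v k` on the cone `σ`. Some combination of the `D i` is ample on
`X` (`IsAmple`: the rational combinations near it are semiample), and the classes of the `D i` are
linearly independent (`Independent`: no nonzero integral combination is linearly equivalent to
effective divisors together with its negative). Suppose that the `D i` are a basis of the group of
the divisor classes of `X` modulo numerical equivalence. If all `n i ≥ 3` then every divisor on `X` is,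
up to `ℚ`-linear equivalence, toroidal, and there are such `D i` (Lefschetz; this remark is not used
and not proved here). Then the real combinations of the `D i` are the space `N¹(X)`.

**The small modifications.** Let `X'` be a projective variety which is isomorphic to `X` in
codimension one, on which the strict transforms of the `D i` are `ℚ`-Cartier: `X' = X`; or any
smooth projective variety which is birational to `X`, if `X` is smooth and the canonical classes
are numerically trivial (birational minimal models are isomorphic in codimension one). It is
described by the coefficients `δ' i P` of the pullbacks of these strict transforms at the prime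
divisors `P` over `X`. The integral combinations have the same sections on `X` and on `X'`, and some
combination is ample on `X'`. This is `IsSmallModification`. The strict transforms of the `D i` are
a basis of the divisor classes of `X'` modulo numerical equivalence, and the space of the real
combinations is `N¹(X')`. The nef cone `nefCone` is the closure of the ample cone, and
`effectiveCone` is the convex cone generated by the classes of the effective divisors.

**The automorphisms.** `IsAutomorphism φ a` says that `a` is the matrix of the pullback of the
divisors on `X'` by the birational map which is given by the automorphism `φ` of `K`: the pullback of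
`D' i` is `ℚ`-linearly equivalent to `∑ j, a i j * D' j`, on all models. If `a` is invertible this
means that the birational map is an automorphism of `X'` (it maps an ample divisor to an ample
divisor); and the pullbacks of the `D' i` by an automorphism are given by such a matrix, as the
`D' i` are a basis of the divisor classes. It acts by `pullback a` on `N¹(X')`.

**The theorem.**
(1) `ConeConjecture`: every small modification `X'` of `X` satisfies the Kawamata-Morrison cone
conjecture. There is a rational polyhedral cone `Π` such that (a) `Nef(X') ∩ Eff(X')` is the union of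
the cones `φ^* Π` for `φ ∈ Aut(X')`; (b) the interiors of `Π` and of `φ^* Π` are disjoint unless `φ^*` is
the identity. Moreover `Nef(X')` is generated by the classes of finitely many base point free
divisors; in particular all nef classes are effective.
(2) There are finitely many small modifications `X 1, ..., X k` of `X` (up to isomorphisms which
respect the identification with `X` in codimension one), and the rational classes in the union of
their nef cones are the movable ones: the Calabi-Yau variety `X` has finitely many minimal models,
and their nef cones are the chambers of the movable cone. Here a combination `μ` is movable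
(`IsMovable`) if the base locus of a multiple `ν` has codimension at least two. This is expressed in
terms of sections: if `s * f` is a section of `ν + ν'` for all sections `s` of `ν` then `f` is a section
of `ν'`. (If all sections of `ν` vanish along a prime divisor `P` of `X`, a function `f` with the
divisor of poles `P` in addition to `ν'` is a counterexample, which exists if `ν'` is sufficiently
ample. If no prime divisor on `X` is in the base locus then `f` is a section of `ν'` at all prime
divisors on `X`, and so everywhere, as `X` is normal.)
-/

set_option autoImplicit false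

open FF MvPolynomial Pool.Agent.W602.GT

namespace Pool.Agent.Results.MP_e49dc9_ag.ToroidalModifications

/-- The form `F` has no singular zeros: its partial derivatives have no common zero but `0`. -/
def Smooth {n : ℕ} (F : MvPolynomial (Fin (n + 1)) ℂ) : Prop :=
  ∀ x : Fin (n + 1) → ℂ, x ≠ 0 → ∃ l, eval x (pderiv l F) ≠ 0

section fans

variable {r R : ℕ}

/-- The multiplicities which satisfy the divisibility conditions. -/
def Admissible (m : Fin R → ℕ) (a : Fin R → Fin r → ℕ) (v : Fin r → ℕ) : Prop :=
  v ≠ 0 ∧ ∀ j, m j ∣ ∑ i, a j i * v i

/-- The vector `v` is in the cone which is generated by the vectors in `σ`. -/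
def InCone (σ : Finset (Fin r → ℕ)) (v : Fin r → ℕ) : Prop :=
  ∃ w : (Fin r → ℕ) → ℚ, (∀ s, 0 ≤ w s) ∧ ∀ k, (v k : ℚ) = ∑ s ∈ σ, w s * s k

/-- `fan` is a finite set of cones, each generated by a finite set of admissible vectors which span
the whole space, which cover all admissible vectors. -/
structure IsFan (m : Fin R → ℕ) (a : Fin R → Fin r → ℕ) (fan : Finset (Finset (Fin r → ℕ))) :
    Prop where
  adm : ∀ σ ∈ fan, ∀ s ∈ σ, Admissible m a s
  full : ∀ σ ∈ fan, ∀ f : Fin r → ℚ, ∃ q : (Fin r → ℕ) → ℚ, ∀ k, f k = ∑ s ∈ σ, q s * s k
  cover : ∀ v, Admissible m a v → ∃ σ ∈ fan, InCone σ v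

end fans

section places

variable {r : ℕ} {n : Fin r → ℕ} {K : Type} [Field K] [Algebra ℂ K]

/-- The affine coordinates of the product of the projective spaces. -/
noncomputable def affine (x : ∀ i, Fin (n i + 1) → K) (b : (i : Fin r) × Fin (n i)) : K :=
  x b.1 b.2.succ / x b.1 0

/-- The minimal order at `P` of the homogeneous coordinates `y`. -/
noncomputable def minimalOrder {n : ℕ} (y : Fin (n + 1) → K) (P : Place ℂ K) : ℤ :=
  Finset.univ.inf' Finset.univ_nonempty fun j => P.ord (y j)

/-- The multiplicities of the hypersurfaces `F i = 0` along the prime divisor `P`; the `x i j` are the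
homogeneous coordinates of the `i`-th factor, which are divided by one of minimal order at `P`. -/
noncomputable def multiplicities (F : ∀ i, MvPolynomial (Fin (n i + 1)) ℂ) (d : Fin r → ℕ)
    (x : ∀ i, Fin (n i + 1) → K) (P : Place ℂ K) (i : Fin r) : ℕ :=
  (P.ord (aeval (x i) (F i)) - d i * minimalOrder (x i) P).toNat

/-- The coefficient at the prime divisor `P` of the divisor with the function `c` of the
multiplicities and the degrees `β t`: it is `c v` plus `β t` times the coefficient at `P` of the
hyperplane class of the `t`-th factor, which is represented by the divisor with the coefficients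
`- minimalOrder (x t) P` (its sections are the linear forms in the `x t j`). -/
noncomputable def coefficient (F : ∀ i, MvPolynomial (Fin (n i + 1)) ℂ) (d : Fin r → ℕ)
    (x : ∀ i, Fin (n i + 1) → K) (c : (Fin r → ℕ) → ℚ) (β : Fin r → ℤ) (P : Place ℂ K) : ℚ :=
  c (multiplicities F d x P) - ∑ t, (β t : ℚ) * minimalOrder (x t) P

end places

section divisors

variable {K : Type} [Field K] [Algebra ℂ K] {p : ℕ} (N : ℕ) (δ : Fin p → Place ℂ K → ℚ)

/-- `f` is a section of `∑ i, μ i * D i`: its order at every prime divisor `P` over `X` (every
divisorial place `P` of `K`) is at least minus the coefficient `∑ i, μ i * δ i P` of the pullback of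
`∑ i, μ i * D i`, or `f = 0`. -/
def IsSection (μ : Fin p → ℤ) (f : K) : Prop :=
  ∀ P : Place ℂ K, Divisorial N P → f = 0 ∨ - ∑ i, (μ i : ℚ) * δ i P ≤ P.ord f

/-- The linear system of the integral combination `∑ i, μ i * D i` has no base points on `X`: it has
for every prime divisor `P` over `X` a section whose order at `P` is the minimal one. -/
def BasePointFree (μ : Fin p → ℤ) : Prop :=
  ∀ P : Place ℂ K, Divisorial N P → ∃ f : K, f ≠ 0 ∧ IsSection N δ μ f ∧
    (P.ord f : ℚ) ≤ - ∑ i, (μ i : ℚ) * δ i P

/-- A positive multiple of the rational combination `∑ i, μ i * D i` is an integral combination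
without base points. -/
def Semiample (μ : Fin p → ℚ) : Prop :=
  ∃ k : ℕ, 1 ≤ k ∧ ∃ ν : Fin p → ℤ, (∀ i, (k : ℚ) * μ i = ν i) ∧ BasePointFree N δ ν

/-- All the rational combinations near `A` are semiample on `X`: this holds if the combination `A` is
ample. -/
def IsAmple (A : Fin p → ℚ) : Prop :=
  ∃ ε : ℚ, 0 < ε ∧ ∀ μ : Fin p → ℚ, (∀ i, |μ i - A i| ≤ ε) → Semiample N δ μ

/-- The `D i` are linearly independent: if an integral combination and its negative have nonzero
sections then it is zero. -/
def Independent : Prop :=
  ∀ μ : Fin p → ℤ, (∃ f : K, f ≠ 0 ∧ IsSection N δ μ f) → (∃ f : K, f ≠ 0 ∧ IsSection N δ (-μ) f) →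
    μ = 0

/-- `δ' i P` are the coefficients of the pullbacks of the strict transforms of the `D i` from a
projective variety which is isomorphic to `X` in codimension one: the integral combinations have the
same sections, and some rational combination is ample. -/
def IsSmallModification (δ' : Fin p → Place ℂ K → ℚ) : Prop :=
  (∀ (ν : Fin p → ℤ) (f : K), IsSection N δ' ν f ↔ IsSection N δ ν f) ∧ ∃ A, IsAmple N δ' A

/-- The nef cone: the closure of the cone of the ample classes. -/
def nefCone : Set (Fin p → ℝ) := closure {x | ∃ μ : Fin p → ℚ, IsAmple N δ μ ∧ ∀ i, x i = μ i}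

/-- The cone of the classes of the effective divisors: the nonnegative real combinations of integral
combinations of the `D i` which have nonzero sections. -/
def effectiveCone : Set (Fin p → ℝ) :=
  {x | ∃ (k : ℕ) (ν : Fin k → Fin p → ℤ) (t : Fin k → ℝ),
    (∀ b, 0 ≤ t b ∧ ∃ f : K, f ≠ 0 ∧ IsSection N δ (ν b) f) ∧ ∀ i, x i = ∑ b, t b * (ν b i : ℝ)}

/-- The cone generated by the integral vectors `w b`. -/
def cone {k : ℕ} (w : Fin k → Fin p → ℤ) : Set (Fin p → ℝ) :=
  {x | ∃ t : Fin k → ℝ, (∀ b, 0 ≤ t b) ∧ ∀ i, x i = ∑ b, t b * (w b i : ℝ)}

/-- `C` is the cone generated by finitely many integral vectors. -/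
def IsRationalPolyhedral (C : Set (Fin p → ℝ)) : Prop :=
  ∃ (k : ℕ) (w : Fin k → Fin p → ℤ), C = cone w

/-- `a` is the matrix of the pullback by the birational map of the automorphism `φ` of the function
field: if the place `P'` is the image of the place `P` then the coefficient at `P` of the pullback of
`D i` is `δ i P'`, and its difference with the coefficient of `∑ j, a i j * D j` is `1 / m` times the
order of the function `s i`. -/
def IsAutomorphism (φ : K ≃ₐ[ℂ] K) (a : Matrix (Fin p) (Fin p) ℤ) : Prop :=
  ∃ (m : ℕ) (s : Fin p → K), 1 ≤ m ∧ (∀ i, s i ≠ 0) ∧
    ∀ (i : Fin p) (P P' : Place ℂ K), Divisorial N P → (∀ f, P'.ord f = P.ord (φ f)) →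
      (m : ℚ) * (δ i P' - ∑ j, (a i j : ℚ) * δ j P) = P.ord (s i)

/-- The action of the matrix `a` on the real combinations of the `D i`. -/
def pullback (a : Matrix (Fin p) (Fin p) ℤ) (x : Fin p → ℝ) : Fin p → ℝ :=
  fun j => ∑ i, x i * (a i j : ℝ)

/-- The Kawamata-Morrison cone conjecture. -/
def ConeConjecture : Prop :=
  ∃ Pi : Set (Fin p → ℝ), IsRationalPolyhedral Pi ∧
    nefCone N δ ∩ effectiveCone N δ =
      {x | ∃ (φ : K ≃ₐ[ℂ] K) (a : GL (Fin p) ℤ), IsAutomorphism N δ φ a.1 ∧
        ∃ y ∈ Pi, x = pullback a.1 y} ∧
    ∀ (φ : K ≃ₐ[ℂ] K) (a : GL (Fin p) ℤ), IsAutomorphism N δ φ a.1 →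
      (interior Pi ∩ pullback a.1 '' interior Pi).Nonempty → a = 1

/-- The rational combination `μ` is movable: some integral multiple `ν` has a nonzero section, and a
function `f` is a section of `ν'` if the products of `f` with all sections of `ν` are sections of
`ν + ν'`. -/
def IsMovable (μ : Fin p → ℚ) : Prop :=
  ∃ (m : ℕ) (ν : Fin p → ℤ), 1 ≤ m ∧ (∀ i, (m : ℚ) * μ i = ν i) ∧
    (∃ s : K, s ≠ 0 ∧ IsSection N δ ν s) ∧ ∀ (ν' : Fin p → ℤ) (f : K),
      (∀ s, IsSection N δ ν s → IsSection N δ (ν + ν') (s * f)) → IsSection N δ ν' f

end divisors

/-- **The cone conjecture for the small modifications of toroidal covers.** Let `K` be the function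
field of an abelian cover `Y` of the product of the projective `n i`-spaces which is branched along
smooth hypersurfaces `F i = 0` of the factors, `X` the projective toroidal modification of `Y` which
is given by `fan`, and `D i`, `i < p`, linearly independent toroidal `ℚ`-Cartier divisors on `X` with
the degrees `β i t` and the coefficients `c i`; some rational combination `A` of them is ample.

(1) For every small modification `X'` of `X`, the nef cone is generated by finitely many base point
free classes, and the Kawamata-Morrison cone conjecture holds.

(2) There are finitely many small modifications, and the rational classes in the union of their nef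
cones are the movable ones. -/
theorem result (r N R p : ℕ) (n d : Fin r → ℕ) (hr : 1 ≤ r) (hn : ∀ i, 1 ≤ n i)
    (hd : ∀ i, 1 ≤ d i) (hN : N = ∑ i, n i)
    (F : ∀ i, MvPolynomial (Fin (n i + 1)) ℂ) (hF : ∀ i, (F i).IsHomogeneous (d i))
    (hs : ∀ i, Smooth (F i)) (m : Fin R → ℕ) (hm : ∀ j, 1 ≤ m j) (a : Fin R → Fin r → ℕ)
    (hdiv : ∀ j i, m j ∣ a j i * d i)
    (K : Type) [Field K] [Algebra ℂ K] (x : ∀ i, Fin (n i + 1) → K) (hx0 : ∀ i, x i 0 ≠ 0)
    (hbas : IsTranscendenceBasis ℂ (affine x)) (z : Fin R → K)
    (hz : ∀ j, z j ^ m j = ∏ i, (aeval (x i) (F i) / x i 0 ^ d i) ^ a j i)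
    (hgen : IntermediateField.adjoin ℂ (Set.range (affine x) ∪ Set.range z) = ⊤)
    (fan : Finset (Finset (Fin r → ℕ))) (hfan : IsFan m a fan)
    (c : Fin p → (Fin r → ℕ) → ℚ) (hc0 : ∀ i, c i 0 = 0) (β : Fin p → Fin r → ℤ)
    (u : Finset (Fin r → ℕ) → Fin p → Fin r → ℚ)
    (hlin : ∀ σ ∈ fan, ∀ i v, Admissible m a v → InCone σ v → - c i v = ∑ k, u σ i k * v k)
    (δ : Fin p → Place ℂ K → ℚ) (hδ : ∀ i P, δ i P = coefficient F d x (c i) (β i) P)
    (hind : Independent N δ) (A : Fin p → ℚ) (hA : IsAmple N δ A) :
    (∀ δ' : Fin p → Place ℂ K → ℚ, IsSmallModification N δ δ' →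
      (∃ (k : ℕ) (w : Fin k → Fin p → ℤ),
        (∀ b, BasePointFree N δ' (w b)) ∧ nefCone N δ' = cone w) ∧
      ConeConjecture N δ') ∧
    ∃ (k : ℕ) (Δ : Fin k → Fin p → Place ℂ K → ℚ), (∀ j, IsSmallModification N δ (Δ j)) ∧
      (∀ δ' : Fin p → Place ℂ K → ℚ, IsSmallModification N δ δ' →
        ∃ j, ∀ i (P : Place ℂ K), Divisorial N P → δ' i P = Δ j i P) ∧
      ∀ μ : Fin p → ℚ, IsMovable N δ μ ↔ ∃ j, (fun i => (μ i : ℝ)) ∈ nefCone N (Δ j) := by
  obtain ⟨h1, h2⟩ := Pool.Agent.Helper15K1.KC.main_kc (δ := δ)
    (Pool.Agent.Q57.CX.main_cox (N := N) hr hn hN hd hF hs hx0 hbas hm hdiv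
      hz hgen (S := fan) ⟨hfan.adm, hfan.full, hfan.cover⟩ hc0 (u := u) hlin (β := β) hδ) hind
    (Pool.Agent.Helper15K1.MM.exists_div hr hn hN hd hF hs hx0 hbas hm hdiv hz hgen) hA
  refine ⟨fun δ' hδ' => ?_, h2⟩
  obtain ⟨h3, k, w, h4, h5⟩ := h1 δ' hδ'
  exact ⟨h3, cone w, ⟨k, w, rfl⟩, h4, h5⟩

end Pool.Agent.Results.MP_e49dc9_ag.ToroidalModifications
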